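import Pool.Agent.Q193.UH.Anti

/-!
# An HFG Hopf algebra with non-injective antipode

The Arens-Michael envelope of an affine Hopf algebra is an HFG Hopf algebra. For the affine Hopf
algebra `Hv ℂ` (generated by 144 elements) a non-zero element `cv` killed by the antipode survives
in the Arens-Michael envelope, and is killed by the antipode of the envelope.
-/

set_option autoImplicit false

open scoped TensorProduct

namespace Pool.Agent.Results.MP_a6183d_an.AntipodeNotInjective

open Pool.Agent.Q193.UH Pool.Agent.TH12.Hopf

/-- There is a complex Hopf algebra, finitely generated as an algebra, such that the antipode of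
its Arens-Michael envelope kills a non-zero element; so it is not injective. -/
theorem result :
    ∃ (H : Type) (_ : Ring H) (_ : HopfAlgebra ℂ H), Algebra.FiniteType ℂ H ∧
      ∃ z : EnvH H, z ≠ 0 ∧ antipodeHat H z = 0 := by
  let _ : HopfAlgebra ℂ (Hv ℂ) := hopf (Fv ℂ)
  refine ⟨Hv ℂ, inferInstance, hopf (Fv ℂ), finiteType, envH (Hv ℂ) cv, ?_, ?_⟩
  · exact env_ne_zero ⟨pH, pH_mul⟩ pH_cv
  · rw [antipodeHat_env]
    have h : HopfAlgebra.antipode ℂ (A := Hv ℂ) cv = 0 := anti_cv
    rw [h]
    rfl

end Pool.Agent.Results.MP_a6183d_an.AntipodeNotInjective
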